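import Pool.Agent.H94.CH.Off

/-!
# The frame of a body of polynomial curves

`e i`, `i : ι`, are polynomial curves in `ℝ ^ n`; the body consists of the curves `∑ a i • e i` with
`|a i| ≤ 1`. At all the times off few short intervals its section is, up to a small power, the
parallelepiped spanned by `n` of the curves, and the dual frame is polynomial in the time.
-/

set_option autoImplicit false

namespace Pool.CHT

open Polynomial Finset

variable {n : ℕ} {ι : Type}

/-- The matrix of the curves `e (S j)`. -/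
noncomputable def mt (e : ι → Fin n → ℝ[X]) (S : Fin n → ι) : Matrix (Fin n) (Fin n) ℝ[X] :=
  Matrix.of fun j l => e (S j) l

/-- The values of the curves at the time `t`. -/
noncomputable def mte (e : ι → Fin n → ℝ[X]) (S : Fin n → ι) (t : ℝ) :
    Matrix (Fin n) (Fin n) ℝ := Matrix.of fun j l => (e (S j) l).eval t

theorem natDegree_det_le (M : Matrix (Fin n) (Fin n) ℝ[X]) (E : ℕ)
    (h : ∀ i j, (M i j).natDegree ≤ E) : M.det.natDegree ≤ n * E := by
  rw [Matrix.det_apply]
  refine Polynomial.natDegree_sum_le_of_forall_le _ _ fun σ _ => ?_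
  have h1 : (Equiv.Perm.sign σ • ∏ i, M (σ i) i).natDegree ≤ (∏ i, M (σ i) i).natDegree := by
    rcases Int.units_eq_one_or (Equiv.Perm.sign σ) with h | h
    · rw [h, one_smul]
    · rw [h, Units.neg_smul, one_smul, natDegree_neg]
  refine h1.trans ((natDegree_prod_le _ _).trans ?_)
  calc ∑ i, (M (σ i) i).natDegree ≤ ∑ _i : Fin n, E := Finset.sum_le_sum fun i _ => h _ _
    _ = n * E := by rw [Finset.sum_const, Finset.card_univ, Fintype.card_fin, smul_eq_mul]

/-- The determinant of `n` of the curves. -/
noncomputable def dt (e : ι → Fin n → ℝ[X]) (S : Fin n → ι) : ℝ[X] := (mt e S).det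

theorem eval_dt (e : ι → Fin n → ℝ[X]) (S : Fin n → ι) (t : ℝ) :
    (dt e S).eval t = (mte e S t).det := by
  unfold dt mt mte
  rw [← coe_evalRingHom, RingHom.map_det]
  rfl

theorem natDegree_dt_le (e : ι → Fin n → ℝ[X]) (S : Fin n → ι) {E : ℕ}
    (hE : ∀ i l, (e i l).natDegree ≤ E) : (dt e S).natDegree ≤ n * E :=
  natDegree_det_le _ E fun i j => hE _ _

/-- The covector curves dual to the frame, before normalization. -/
noncomputable def cof (e : ι → Fin n → ℝ[X]) (S : Fin n → ι) (j l : Fin n) : ℝ[X] :=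
  ((mt e S).updateRow j (Pi.single l 1)).det

theorem natDegree_cof_le (e : ι → Fin n → ℝ[X]) (S : Fin n → ι) {E : ℕ}
    (hE : ∀ i l, (e i l).natDegree ≤ E) (j l : Fin n) : (cof e S j l).natDegree ≤ n * E := by
  refine natDegree_det_le _ E fun i k => ?_
  by_cases hi : i = j
  · subst hi
    rw [Matrix.updateRow_self]
    by_cases hk : k = l
    · subst hk
      rw [Pi.single_eq_same, natDegree_one]
      exact Nat.zero_le _
    · rw [Pi.single_eq_of_ne hk, natDegree_zero]
      exact Nat.zero_le _
  · rw [Matrix.updateRow_ne hi]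
    exact hE _ _

theorem eval_cof (e : ι → Fin n → ℝ[X]) (S : Fin n → ι) (j l : Fin n) (t : ℝ) :
    (cof e S j l).eval t = ((mte e S t).updateRow j (Pi.single l 1)).det := by
  unfold cof mt mte
  rw [← coe_evalRingHom, RingHom.map_det]
  congr 1
  ext i k
  by_cases hi : i = j
  · subst hi
    rw [RingHom.mapMatrix_apply, Matrix.map_apply, Matrix.updateRow_self, Matrix.updateRow_self]
    by_cases hk : k = l
    · subst hk
      rw [Pi.single_eq_same, Pi.single_eq_same, map_one]
    · rw [Pi.single_eq_of_ne hk, Pi.single_eq_of_ne hk, map_zero]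
  · rw [RingHom.mapMatrix_apply, Matrix.map_apply, Matrix.updateRow_ne hi, Matrix.updateRow_ne hi]
    rfl

/-- The dual covector of a row is the determinant with this row replaced. -/
theorem sum_cof (e : ι → Fin n → ℝ[X]) (S : Fin n → ι) (j : Fin n) (t : ℝ) (v : Fin n → ℝ) :
    ∑ l, (cof e S j l).eval t * v l = ((mte e S t).updateRow j v).det := by
  have h1 : ∀ b : Fin n → ℝ, ((mte e S t).updateRow j b).det =
      Matrix.cramer (mte e S t).transpose b j := by
    intro b
    rw [Matrix.cramer_transpose_apply]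
  have h2 : v = ∑ l, v l • (Pi.single l (1 : ℝ) : Fin n → ℝ) := by
    funext k
    rw [Finset.sum_apply, Finset.sum_eq_single k]
    · simp
    · intro b _ hb
      rw [Pi.smul_apply, Pi.single_eq_of_ne (Ne.symm hb), smul_zero]
    · intro h
      exact absurd (Finset.mem_univ _) h
  rw [h1]
  conv_rhs => rw [h2]
  rw [map_sum, Finset.sum_apply]
  refine Finset.sum_congr rfl fun l _ => ?_
  rw [eval_cof, h1, map_smul, Pi.smul_apply, smul_eq_mul, mul_comm]

/-- Cramer: a vector is the combination of the rows with the coefficients given by the dual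
covectors. -/
theorem cramer_rows (e : ι → Fin n → ℝ[X]) (S : Fin n → ι) (t : ℝ) (v : Fin n → ℝ)
    (h0 : (dt e S).eval t ≠ 0) (l : Fin n) :
    v l = ∑ j, (∑ k, (cof e S j k).eval t * v k) / (dt e S).eval t * (e (S j) l).eval t := by
  rw [eval_dt] at h0 ⊢
  have h1 : (mte e S t).transpose.mulVec (Matrix.cramer (mte e S t).transpose v) =
      (mte e S t).transpose.det • v := Matrix.mulVec_cramer _ _
  have h2 := congrFun h1 l
  rw [Matrix.mulVec, dotProduct, Pi.smul_apply, smul_eq_mul, Matrix.det_transpose] at h2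
  have h3 : ∀ j, ∑ k, (cof e S j k).eval t * v k = Matrix.cramer (mte e S t).transpose v j := by
    intro j
    rw [sum_cof, Matrix.cramer_transpose_apply]
  have h4 : v l = (∑ j, (mte e S t).transpose l j * Matrix.cramer (mte e S t).transpose v j) /
      (mte e S t).det := by
    rw [h2]
    field_simp
  rw [h4, Finset.sum_div]
  refine Finset.sum_congr rfl fun j _ => ?_
  rw [h3, Matrix.transpose_apply]
  unfold mte
  rw [Matrix.of_apply]
  ring

/-- **The frame.** Among finitely many polynomial curves which are not dependent at all the times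
there are `n` (the frame) and `n` covector curves of degree at most `n E` (the dual frame) such that
the dual frame is bounded by one on all the curves, at all the times of the unit interval, and at
all the times off at most `n E` intervals of length `2 r` every vector on which the dual frame is
at most `(r / 2) ^ (n E)` is a combination of the vectors of the frame with coefficients of modulus
at most one. -/
theorem frame [Finite ι] (E : ℕ) (e : ι → Fin n → ℝ[X]) (hE : ∀ i l, (e i l).natDegree ≤ E)
    (hne : ∃ S : Fin n → ι, ∃ t ∈ Set.Icc (0 : ℝ) 1, (dt e S).eval t ≠ 0) :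
    ∃ (S : Fin n → ι) (g : Fin n → Fin n → ℝ[X]), (∀ j l, (g j l).natDegree ≤ n * E) ∧
      (∀ j i, ∀ t ∈ Set.Icc (0 : ℝ) 1, |∑ l, (g j l).eval t * (e i l).eval t| ≤ 1) ∧
      ∃ z : Finset ℝ, z.card ≤ n * E ∧ ∀ r : ℝ, 0 < r → r ≤ 1 → ∀ t ∈ Set.Icc (0 : ℝ) 1,
        (∀ a ∈ z, r ≤ |t - a|) → ∀ (v : Fin n → ℝ) (s : ℝ),
          (∀ j, |∑ l, (g j l).eval t * v l| ≤ s * (r / 2) ^ (n * E)) →
          ∃ b : Fin n → ℝ, (∀ j, |b j| ≤ s) ∧ ∀ l, v l = ∑ j, b j * (e (S j) l).eval t := by
  classical
  have := Fintype.ofFinite ι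
  -- the maximum of a determinant over the unit interval
  have hmax : ∀ S : Fin n → ι, ∃ t ∈ Set.Icc (0 : ℝ) 1, ∀ s ∈ Set.Icc (0 : ℝ) 1,
      |(dt e S).eval s| ≤ |(dt e S).eval t| := by
    intro S
    obtain ⟨t, ht, h⟩ := isCompact_Icc.exists_isMaxOn (s := Set.Icc (0 : ℝ) 1)
      ⟨0, by simp⟩ (f := fun t => |(dt e S).eval t|)
      ((dt e S).continuous.abs.continuousOn)
    exact ⟨t, ht, fun s hs => h hs⟩
  choose τ hτ hτm using hmax
  obtain ⟨S₀, t₀, ht₀, h0⟩ := hne
  obtain ⟨S, -, hS⟩ := Finset.exists_max_image (Finset.univ : Finset (Fin n → ι))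
    (fun S => |(dt e S).eval (τ S)|) ⟨S₀, Finset.mem_univ _⟩
  obtain ⟨M, hM⟩ : ∃ M : ℝ, M = |(dt e S).eval (τ S)| := ⟨_, rfl⟩
  have hM0 : 0 < M := by
    rw [hM]
    calc 0 < |(dt e S₀).eval t₀| := abs_pos.2 h0
      _ ≤ |(dt e S₀).eval (τ S₀)| := hτm _ _ ht₀
      _ ≤ _ := hS _ (Finset.mem_univ _)
  have hall : ∀ (S' : Fin n → ι), ∀ t ∈ Set.Icc (0 : ℝ) 1, |(dt e S').eval t| ≤ M := fun S' t ht =>
    ((hτm S' t ht).trans (hS S' (Finset.mem_univ _))).trans hM.ge
  obtain ⟨z, hz, hzr⟩ := off_intervals (dt e S) (n * E) (natDegree_dt_le e S hE)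
  refine ⟨S, fun j l => Polynomial.C (1 / M) * cof e S j l, ?_, ?_, z, hz, ?_⟩
  · intro j l
    refine (natDegree_C_mul_le _ _).trans (natDegree_cof_le e S hE j l)
  · intro j i t ht
    have h1 : ∑ l, (Polynomial.C (1 / M) * cof e S j l).eval t * (e i l).eval t =
        1 / M * ((mte e S t).updateRow j (fun l => (e i l).eval t)).det := by
      rw [← sum_cof, Finset.mul_sum]
      refine Finset.sum_congr rfl fun l _ => ?_
      rw [eval_mul, eval_C]
      ring
    have h2 : (mte e S t).updateRow j (fun l => (e i l).eval t) =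
        mte e (Function.update S j i) t := by
      ext k l
      by_cases hk : k = j
      · subst hk
        rw [Matrix.updateRow_self]
        unfold mte
        rw [Matrix.of_apply, Function.update_self]
      · rw [Matrix.updateRow_ne hk]
        unfold mte
        rw [Matrix.of_apply, Matrix.of_apply, Function.update_of_ne hk]
    rw [h1, h2, ← eval_dt, abs_mul, abs_of_nonneg (by positivity : (0 : ℝ) ≤ 1 / M)]
    calc 1 / M * |(dt e (Function.update S j i)).eval t| ≤ 1 / M * M :=
          mul_le_mul_of_nonneg_left (hall _ t ht) (by positivity)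
      _ = 1 := by field_simp
  · intro r hr hr1 t ht hzt v s hv
    have h1 := hzr r hr hr1 t ht hzt (τ S) (hτ S)
    rw [← hM] at h1
    have hd0 : 0 < |(dt e S).eval t| := lt_of_lt_of_le (by positivity) h1
    refine ⟨fun j => (∑ k, (cof e S j k).eval t * v k) / (dt e S).eval t, ?_, ?_⟩
    · intro j
      have h2 := hv j
      have h3 : ∑ l, (Polynomial.C (1 / M) * cof e S j l).eval t * v l =
          1 / M * ∑ l, (cof e S j l).eval t * v l := by
        rw [Finset.mul_sum]
        refine Finset.sum_congr rfl fun l _ => ?_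
        rw [eval_mul, eval_C]
        ring
      rw [h3, abs_mul, abs_of_nonneg (by positivity : (0 : ℝ) ≤ 1 / M)] at h2
      rw [abs_div, div_le_iff₀ hd0]
      have h4 : |∑ k, (cof e S j k).eval t * v k| ≤ s * (r / 2) ^ (n * E) * M := by
        rw [one_div, inv_mul_le_iff₀ hM0] at h2
        linarith
      have hs0 : 0 ≤ s := by
        by_contra hcon
        have : s * (r / 2) ^ (n * E) * M < 0 := by
          have : s * (r / 2) ^ (n * E) < 0 := mul_neg_of_neg_of_pos (not_le.1 hcon) (by positivity)
          exact mul_neg_of_neg_of_pos this hM0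
        linarith [abs_nonneg (∑ k, (cof e S j k).eval t * v k)]
      calc |∑ k, (cof e S j k).eval t * v k| ≤ s * ((r / 2) ^ (n * E) * M) := by linarith
        _ ≤ s * |(dt e S).eval t| := mul_le_mul_of_nonneg_left h1 hs0
    · intro l
      exact cramer_rows e S t v (abs_pos.1 hd0) l

end Pool.CHT
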