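import Mathlib

/-!
# A polynomial is not small off few short intervals
-/

set_option autoImplicit false

namespace Pool.CHT

open Polynomial

theorem multiset_prod_le (s : Multiset ℂ) (t t₀ r : ℝ) (hr : 0 < r) (hr1 : r ≤ 1)
    (htt : |t₀ - t| ≤ 1) (h : ∀ a ∈ s, r ≤ |t - a.re|) :
    (r / 2) ^ (Multiset.card s) * ‖(s.map fun a => (t₀ : ℂ) - a).prod‖ ≤
      ‖(s.map fun a => (t : ℂ) - a).prod‖ := by
  induction s using Multiset.induction_on with
  | empty => simp
  | cons a s ih =>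
    have h1 := ih fun b hb => h b (Multiset.mem_cons_of_mem hb)
    have h2 : r ≤ ‖(t : ℂ) - a‖ := by
      have h3 := Complex.abs_re_le_norm ((t : ℂ) - a)
      rw [Complex.sub_re, Complex.ofReal_re] at h3
      exact (h a (Multiset.mem_cons_self a s)).trans h3
    have h4 : ‖(t₀ : ℂ) - a‖ ≤ 1 + ‖(t : ℂ) - a‖ := by
      have e : (t₀ : ℂ) - a = ((t₀ - t : ℝ) : ℂ) + ((t : ℂ) - a) := by push_cast; ring
      rw [e]
      refine (norm_add_le _ _).trans (add_le_add ?_ le_rfl)
      rw [Complex.norm_real]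
      exact htt
    have h5 : r / 2 * ‖(t₀ : ℂ) - a‖ ≤ ‖(t : ℂ) - a‖ := by
      have h6 : 0 ≤ ‖(t : ℂ) - a‖ := norm_nonneg _
      nlinarith
    rw [Multiset.map_cons, Multiset.map_cons, Multiset.prod_cons, Multiset.prod_cons, norm_mul,
      norm_mul, Multiset.card_cons, pow_succ]
    calc (r / 2) ^ Multiset.card s * (r / 2) *
          (‖(t₀ : ℂ) - a‖ * ‖(s.map fun a => (t₀ : ℂ) - a).prod‖)
        = (r / 2 * ‖(t₀ : ℂ) - a‖) *
          ((r / 2) ^ Multiset.card s * ‖(s.map fun a => (t₀ : ℂ) - a).prod‖) := by ring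
      _ ≤ ‖(t : ℂ) - a‖ * ‖(s.map fun a => (t : ℂ) - a).prod‖ :=
        mul_le_mul h5 h1 (by positivity) (norm_nonneg _)

/-- **Few short intervals.** A polynomial of degree `D` is at all the times off at most `D`
intervals of length `2 r` at least `(r / 2) ^ D` times its size at any time. -/
theorem off_intervals (p : ℝ[X]) (D : ℕ) (hD : p.natDegree ≤ D) :
    ∃ z : Finset ℝ, z.card ≤ D ∧ ∀ r : ℝ, 0 < r → r ≤ 1 → ∀ t ∈ Set.Icc (0 : ℝ) 1,
      (∀ a ∈ z, r ≤ |t - a|) → ∀ t₀ ∈ Set.Icc (0 : ℝ) 1,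
        (r / 2) ^ D * |p.eval t₀| ≤ |p.eval t| := by
  classical
  obtain ⟨P, hP⟩ : ∃ P : ℂ[X], P = p.map (algebraMap ℝ ℂ) := ⟨_, rfl⟩
  have hsp : P.Splits := IsAlgClosed.splits P
  have hev : ∀ t : ℝ, ‖P.leadingCoeff‖ * ‖(P.roots.map fun a => (t : ℂ) - a).prod‖ =
      |p.eval t| := by
    intro t
    have h1 : P.eval (t : ℂ) = P.leadingCoeff * (P.roots.map fun a => (t : ℂ) - a).prod := by
      exact hsp.eval_eq_prod_roots _
    have h2 : P.eval (t : ℂ) = ((p.eval t : ℝ) : ℂ) := by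
      rw [hP, Polynomial.eval_map_algebraMap, ← Complex.coe_algebraMap,
        Polynomial.aeval_algebraMap_apply, Polynomial.coe_aeval_eq_eval]
    rw [← norm_mul, ← h1, h2, Complex.norm_real, Real.norm_eq_abs]
  have hcard : Multiset.card P.roots ≤ D := by
    refine (Polynomial.card_roots' P).trans ?_
    rw [hP]
    exact (Polynomial.natDegree_map_le).trans hD
  refine ⟨(P.roots.map Complex.re).toFinset, ?_, ?_⟩
  · refine (Multiset.toFinset_card_le _).trans ?_
    rw [Multiset.card_map]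
    exact hcard
  · intro r hr hr1 t ht hz t₀ ht₀
    have h1 := multiset_prod_le P.roots t t₀ r hr hr1 (by
      rw [abs_le]; constructor <;> linarith [ht.1, ht.2, ht₀.1, ht₀.2]) (by
      intro a ha
      refine hz a.re ?_
      rw [Multiset.mem_toFinset, Multiset.mem_map]
      exact ⟨a, ha, rfl⟩)
    rw [← hev t, ← hev t₀]
    have h2 : (r / 2) ^ D ≤ (r / 2) ^ Multiset.card P.roots :=
      pow_le_pow_of_le_one (by positivity) (by linarith) hcard
    calc (r / 2) ^ D * (‖P.leadingCoeff‖ * ‖(P.roots.map fun a => (t₀ : ℂ) - a).prod‖)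
        ≤ (r / 2) ^ Multiset.card P.roots *
          (‖P.leadingCoeff‖ * ‖(P.roots.map fun a => (t₀ : ℂ) - a).prod‖) :=
          mul_le_mul_of_nonneg_right h2 (by positivity)
      _ = ‖P.leadingCoeff‖ * ((r / 2) ^ Multiset.card P.roots *
          ‖(P.roots.map fun a => (t₀ : ℂ) - a).prod‖) := by ring
      _ ≤ _ := mul_le_mul_of_nonneg_left h1 (norm_nonneg _)

end Pool.CHT
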